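import Pool.Agent.Work.MP_3cad78_co.Cover2

/-! Every finite graph whose edges are covered by two vertices is contractible. -/

namespace Pool.Agent.Work.MP_3cad78_co.Parked.CoverTwo

open Pool.Agent.Work.MP_3cad78_co

theorem result (W : Type) [Finite W] (H : SimpleGraph W) (x y : W)
    (h : ∀ u v, H.Adj u v → u = x ∨ u = y ∨ v = x ∨ v = y) : Contractible H :=
  contractible_of_cover2 H x y h

end Pool.Agent.Work.MP_3cad78_co.Parked.CoverTwo
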